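import Mathlib

set_option autoImplicit false

/-!
# Closed subspaces as kernels of operators

If `E` is a Banach space with a complemented Hilbertian subspace whose complement is separable
and infinite-dimensional (in a suitable sense), then every closed subspace of `E` is the kernel of
a bounded operator on `E`.
-/

namespace Pool.Agent.X109.KP

open Topology Filter

variable {𝕜 : Type*} [RCLike 𝕜]

/-- Norming functionals of a quotient by a closed subspace. -/
theorem exists_dual_quot {E : Type*} [NormedAddCommGroup E] [NormedSpace 𝕜 E]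
    (Z : Submodule 𝕜 E) (hZ : IsClosed (Z : Set E)) (s : E) :
    ∃ f : E →L[𝕜] 𝕜, (∀ x, ‖f x‖ ≤ ‖x‖) ∧ (∀ z ∈ Z, f z = 0) ∧
      ∀ ε : ℝ, 0 < ε → ∃ z ∈ Z, ‖s - z‖ ≤ ‖f s‖ + ε := by
  have : IsClosed (Z : Set E) := hZ
  obtain ⟨g, hg1, hg2⟩ := exists_dual_vector'' 𝕜 (Z.mkQ s)
  have hb : ∀ x, ‖(g.toLinearMap.comp Z.mkQ) x‖ ≤ 1 * ‖x‖ := by
    intro x
    rw [one_mul]
    calc ‖g (Z.mkQ x)‖ ≤ ‖g‖ * ‖Z.mkQ x‖ := g.le_opNorm _
      _ ≤ 1 * ‖x‖ := by
        gcongr
        exact Submodule.Quotient.norm_mk_le Z x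
      _ = ‖x‖ := one_mul _
  refine ⟨(g.toLinearMap.comp Z.mkQ).mkContinuous 1 hb, ?_, ?_, ?_⟩
  · intro x
    have := hb x
    rwa [one_mul] at this
  · intro z hz
    change g (Z.mkQ z) = 0
    rw [(Submodule.Quotient.mk_eq_zero Z).2 hz |> fun h => (show Z.mkQ z = 0 from h), map_zero]
  · intro ε hε
    have h1 : ‖(g.toLinearMap.comp Z.mkQ).mkContinuous 1 hb s‖ = ‖Z.mkQ s‖ := by
      change ‖g (Z.mkQ s)‖ = _
      rw [hg2]
      simp
    rw [h1]
    obtain ⟨m, hm, hlt⟩ := Submodule.Quotient.norm_mk_lt (S := Z) (Z.mkQ s) hε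
    refine ⟨s - m, ?_, ?_⟩
    · have : Z.mkQ (s - m) = 0 := by
        rw [map_sub]
        have : Z.mkQ m = Z.mkQ s := hm
        rw [this, sub_self]
      exact (Submodule.Quotient.mk_eq_zero Z).1 this
    · have : s - (s - m) = m := by abel
      rw [this]
      exact hlt.le

/-- The decomposition criterion: if `p : E → H` is onto a Hilbert space with right inverse `j`,
`ker p` is separable and contains an `ℓ₁`-independent sequence, then every closed subspace of `E`
is the kernel of a bounded operator on `E`. -/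
theorem kernel_of_decomp {E H : Type*} [NormedAddCommGroup E] [NormedSpace 𝕜 E] [CompleteSpace E]
    [NormedAddCommGroup H] [InnerProductSpace 𝕜 H] [CompleteSpace H]
    (p : E →L[𝕜] H) (j : H →L[𝕜] E) (hpj : ∀ h, p (j h) = h)
    (s : ℕ → E) (hs : ∀ x, p x = 0 → x ∈ closure (Set.range s))
    (v : ℕ → E) (hv1 : ∀ n, ‖v n‖ ≤ 1) (hpv : ∀ n, p (v n) = 0)
    (hind : ∀ a : ℕ → 𝕜, Summable (fun n => ‖a n‖) → ∑' n, a n • v n = 0 → ∀ n, a n = 0)
    (Z : Submodule 𝕜 E) (hZ : IsClosed (Z : Set E)) :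
    ∃ T : E →L[𝕜] E, ∀ x, T x = 0 ↔ x ∈ Z := by
  classical
  choose f hf1 hf2 hf3 using fun n => exists_dual_quot (𝕜 := 𝕜) Z hZ (s n)
  let V : Submodule 𝕜 H := (Z.map p.toLinearMap).topologicalClosure
  have hVc : IsClosed (V : Set H) := Submodule.isClosed_topologicalClosure _
  have : CompleteSpace V := hVc.completeSpace_coe
  let R : H →L[𝕜] H := Vᗮ.starProjection
  have hR : ∀ y, R y = 0 ↔ y ∈ V := by
    intro y
    constructor
    · intro h
      have h2 := (Submodule.starProjection_apply_eq_zero_iff (K := Vᗮ)).1 h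
      rwa [Submodule.orthogonal_orthogonal] at h2
    · intro h
      refine (Submodule.starProjection_apply_eq_zero_iff (K := Vᗮ)).2 ?_
      rwa [Submodule.orthogonal_orthogonal]
  have hab : ∀ x, Summable (fun n => ‖((1 / 2 : 𝕜) ^ n * f n x)‖) := by
    intro x
    refine Summable.of_nonneg_of_le (fun n => norm_nonneg _) (fun n => ?_)
      ((summable_geometric_two).mul_right ‖x‖)
    rw [norm_mul, norm_pow]
    have : ‖(1 / 2 : 𝕜)‖ = 1 / 2 := by simp
    rw [this]
    gcongr
    exact hf1 n x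
  have hsv : ∀ a : ℕ → 𝕜, Summable (fun n => ‖a n‖) → Summable (fun n => a n • v n) := by
    intro a ha
    refine Summable.of_norm_bounded ha (fun n => ?_)
    rw [norm_smul]
    exact mul_le_of_le_one_right (norm_nonneg _) (hv1 n)
  let T2l : E →ₗ[𝕜] E :=
    { toFun := fun x => ∑' n, ((1 / 2 : 𝕜) ^ n * f n x) • v n
      map_add' := by
        intro x y
        rw [← (hsv _ (hab x)).tsum_add (hsv _ (hab y))]
        refine tsum_congr fun n => ?_
        rw [map_add, mul_add, add_smul]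
      map_smul' := by
        intro c x
        rw [RingHom.id_apply, ← (hsv _ (hab x)).tsum_const_smul c]
        refine tsum_congr fun n => ?_
        rw [map_smul, smul_smul, smul_eq_mul]
        ring_nf }
  have hT2b : ∀ x, ‖T2l x‖ ≤ 2 * ‖x‖ := by
    intro x
    change ‖∑' n, ((1 / 2 : 𝕜) ^ n * f n x) • v n‖ ≤ _
    have h1 : ∀ n, ‖((1 / 2 : 𝕜) ^ n * f n x) • v n‖ ≤ (1 / 2 : ℝ) ^ n * ‖x‖ := by
      intro n
      rw [norm_smul, norm_mul, norm_pow]
      have : ‖(1 / 2 : 𝕜)‖ = 1 / 2 := by simp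
      rw [this]
      calc (1 / 2 : ℝ) ^ n * ‖f n x‖ * ‖v n‖ ≤ (1 / 2 : ℝ) ^ n * ‖x‖ * 1 := by
            gcongr
            · exact hf1 n x
            · exact hv1 n
        _ = _ := mul_one _
    have h2 : HasSum (fun n : ℕ => (1 / 2 : ℝ) ^ n * ‖x‖) (2 * ‖x‖) :=
      hasSum_geometric_two.mul_right ‖x‖
    exact tsum_of_norm_bounded h2 h1
  let T2 : E →L[𝕜] E := T2l.mkContinuous 2 hT2b
  have hT2 : ∀ x, T2 x = ∑' n, ((1 / 2 : 𝕜) ^ n * f n x) • v n := fun x => rfl
  refine ⟨(j.comp (R.comp p)) + T2, fun x => ?_⟩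
  have hTx : ((j.comp (R.comp p)) + T2) x = j (R (p x)) + T2 x := rfl
  rw [hTx]
  constructor
  · intro h
    have hpT2 : p (T2 x) = 0 := by
      rw [hT2, (hsv _ (hab x)).hasSum.mapL p |>.tsum_eq.symm]
      simp [hpv]
    have h1 : R (p x) = 0 := by
      have := congrArg p h
      rwa [map_add, hpj, hpT2, add_zero, map_zero] at this
    have h2 : T2 x = 0 := by
      rwa [h1, map_zero, zero_add] at h
    have h3 : ∀ n, f n x = 0 := by
      intro n
      have := hind _ (hab x) (by rw [← hT2]; exact h2) n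
      have h4 : ((1 / 2 : 𝕜) ^ n) ≠ 0 := pow_ne_zero _ (by norm_num)
      exact (mul_eq_zero.1 this).resolve_left h4
    have h4 : p x ∈ V := (hR _).1 h1
    -- distance estimate
    have key : ∀ ε : ℝ, 0 < ε → ∃ z ∈ Z, ‖x - z‖ ≤ ε := by
      intro ε hε
      set C : ℝ := 2 * (‖j‖ + 1) + 1 with hC
      have hCpos : 0 < C := by positivity
      set δ : ℝ := ε / C with hδ
      have hδpos : 0 < δ := div_pos hε hCpos
      have h5 : p x ∈ closure ((Z.map p.toLinearMap : Submodule 𝕜 H) : Set H) := by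
        rw [← Submodule.topologicalClosure_coe]
        exact h4
      obtain ⟨y, hy, hy2⟩ := Metric.mem_closure_iff.1 h5 δ hδpos
      obtain ⟨z, hz, rfl⟩ := hy
      have hw : p ((x - z) - j (p (x - z))) = 0 := by
        rw [map_sub, hpj, sub_self]
      obtain ⟨_, ⟨n, rfl⟩, hn⟩ := Metric.mem_closure_iff.1 (hs _ hw) δ hδpos
      have h6 : ‖p (x - z)‖ ≤ δ := by
        rw [map_sub]
        have : dist (p x) (p z) < δ := hy2
        rw [dist_eq_norm] at this
        exact this.le
      have h7 : ‖(x - z) - s n‖ ≤ (‖j‖ + 1) * δ := by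
        have e1 : (x - z) - s n = j (p (x - z)) + (((x - z) - j (p (x - z))) - s n) := by abel
        rw [e1]
        calc ‖j (p (x - z)) + (((x - z) - j (p (x - z))) - s n)‖
            ≤ ‖j (p (x - z))‖ + ‖((x - z) - j (p (x - z))) - s n‖ := norm_add_le _ _
          _ ≤ ‖j‖ * δ + δ := by
              gcongr
              · exact (j.le_opNorm _).trans (by gcongr)
              · rw [dist_eq_norm] at hn
                exact hn.le
          _ = (‖j‖ + 1) * δ := by ring
      have h8 : ‖f n (s n)‖ ≤ (‖j‖ + 1) * δ := by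
        have e1 : f n (s n) = - f n ((x - z) - s n) := by
          rw [map_sub, map_sub, h3 n, hf2 n z hz]
          ring
        rw [e1, norm_neg]
        exact (hf1 n _).trans h7
      obtain ⟨z', hz', h9⟩ := hf3 n δ hδpos
      refine ⟨z + z', Z.add_mem hz hz', ?_⟩
      have e2 : x - (z + z') = ((x - z) - s n) + (s n - z') := by abel
      rw [e2]
      calc ‖((x - z) - s n) + (s n - z')‖ ≤ ‖(x - z) - s n‖ + ‖s n - z'‖ := norm_add_le _ _
        _ ≤ (‖j‖ + 1) * δ + ((‖j‖ + 1) * δ + δ) := by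
            gcongr
            exact h9.trans (by gcongr)
        _ = C * δ := by rw [hC]; ring
        _ = ε := by rw [hδ]; field_simp
    have h10 : x ∈ closure (Z : Set E) := by
      rw [Metric.mem_closure_iff]
      intro ε hε
      obtain ⟨z, hz, h⟩ := key (ε / 2) (half_pos hε)
      refine ⟨z, hz, ?_⟩
      rw [dist_eq_norm]
      linarith
    rwa [hZ.closure_eq] at h10
  · intro hx
    have h1 : R (p x) = 0 := by
      rw [hR]
      exact Submodule.le_topologicalClosure _ ⟨x, hx, rfl⟩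
    have h2 : T2 x = 0 := by
      rw [hT2]
      simp [hf2 _ x hx]
    rw [h1, map_zero, h2, add_zero]

end Pool.Agent.X109.KP
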