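import Pool.Agent.X109.KP.Space

set_option autoImplicit false

/-!
# The Johnson–Lindenstrauss space and the kernel problem

Not every closed subspace of `JL` is the kernel of a bounded operator on `JL`, but every closed
subspace of the dual is.
-/

namespace Pool.Agent.X109.KP

open Topology Filter
open scoped ENNReal

variable (𝕜 : Type) [RCLike 𝕜]

/-- The space as a type. -/
def X : Type := ↥(JL 𝕜)

noncomputable instance : NormedAddCommGroup (X 𝕜) :=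
  inferInstanceAs (NormedAddCommGroup ↥(JL 𝕜))

noncomputable instance : NormedSpace 𝕜 (X 𝕜) :=
  inferInstanceAs (NormedSpace 𝕜 ↥(JL 𝕜))

instance : CompleteSpace (X 𝕜) :=
  (Submodule.isClosed_topologicalClosure (Sp 𝕜)).completeSpace_coe

/-- The inclusion of the space in the ambient space. -/
noncomputable def inc : X 𝕜 →L[𝕜] Amb 𝕜 := (JL 𝕜).subtypeL

theorem inc_injective {x y : X 𝕜} (h : inc 𝕜 x = inc 𝕜 y) : x = y := Subtype.ext h

theorem inc_mem (x : X 𝕜) : inc 𝕜 x ∈ JL 𝕜 := x.2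

theorem ge_mem (t : List Bool) : ge 𝕜 t ∈ Sp 𝕜 :=
  Submodule.subset_span (Or.inl ⟨t, rfl⟩)

theorem gb_mem (g : ℕ → Bool) : gb 𝕜 g ∈ Sp 𝕜 :=
  Submodule.subset_span (Or.inr ⟨g, rfl⟩)

theorem Sp_le : Sp 𝕜 ≤ JL 𝕜 := Submodule.le_topologicalClosure _

/-- `e_t` as an element of `X`. -/
noncomputable def E (t : List Bool) : X 𝕜 := ⟨ge 𝕜 t, Sp_le 𝕜 (ge_mem 𝕜 t)⟩

/-- The generator of the branch `g` as an element of `X`. -/
noncomputable def B (g : ℕ → Bool) : X 𝕜 := ⟨gb 𝕜 g, Sp_le 𝕜 (gb_mem 𝕜 g)⟩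

theorem norm_X (x : X 𝕜) : ‖x‖ = max ‖(inc 𝕜 x).1‖ ‖(inc 𝕜 x).2‖ := rfl

/-- The evaluation at `t`. -/
noncomputable def dl (t : List Bool) : StrongDual 𝕜 (X 𝕜) :=
  LinearMap.mkContinuous
    { toFun := fun x => (inc 𝕜 x).1 t
      map_add' := fun _ _ => rfl
      map_smul' := fun _ _ => rfl } 1 (by
    intro x
    rw [one_mul]
    refine (lp.norm_apply_le_norm (by simp) (inc 𝕜 x).1 t).trans ?_
    rw [norm_X]
    exact le_max_left _ _)

theorem dl_apply (t : List Bool) (x : X 𝕜) : dl 𝕜 t x = (inc 𝕜 x).1 t := rfl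

theorem dl_norm (t : List Bool) : ‖dl 𝕜 t‖ ≤ 1 := LinearMap.mkContinuous_norm_le _ zero_le_one _

open Classical in
theorem dl_E (t s : List Bool) : dl 𝕜 t (E 𝕜 s) = if t = s then 1 else 0 := by
  change (ind 𝕜 {s} : List Bool → 𝕜) t = _
  rw [ind_apply]
  simp

open Classical in
theorem dl_B (t : List Bool) (g : ℕ → Bool) : dl 𝕜 t (B 𝕜 g) = if t ∈ br g then 1 else 0 := by
  change (ind 𝕜 (br g) : List Bool → 𝕜) t = _
  rw [ind_apply]

/-- The second component. -/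
noncomputable def q : X 𝕜 →L[𝕜] lp (fun _ : (ℕ → Bool) => 𝕜) 2 :=
  (ContinuousLinearMap.snd 𝕜 _ _).comp (inc 𝕜)

theorem q_apply (x : X 𝕜) : q 𝕜 x = (inc 𝕜 x).2 := rfl

theorem q_E (t : List Bool) : q 𝕜 (E 𝕜 t) = 0 := rfl

/-- Absolute summability of the coordinates of a functional. -/
theorem sum_le (φ : StrongDual 𝕜 (X 𝕜)) (F : Finset (List Bool)) :
    ∑ t ∈ F, ‖φ (E 𝕜 t)‖ ≤ ‖φ‖ := by
  classical
  have hc : ∀ t, ∃ c : 𝕜, ‖c‖ ≤ 1 ∧ c * φ (E 𝕜 t) = (‖φ (E 𝕜 t)‖ : 𝕜) := by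
    intro t
    by_cases h : φ (E 𝕜 t) = 0
    · exact ⟨0, by simp, by simp [h]⟩
    · refine ⟨(‖φ (E 𝕜 t)‖ : 𝕜) / φ (E 𝕜 t), ?_, ?_⟩
      · rw [norm_div, RCLike.norm_ofReal, abs_norm, div_self (norm_ne_zero_iff.2 h)]
      · rw [div_mul_cancel₀ _ h]
  choose c hc1 hc2 using hc
  have h1 : φ (∑ t ∈ F, c t • E 𝕜 t) = ((∑ t ∈ F, ‖φ (E 𝕜 t)‖ : ℝ) : 𝕜) := by
    rw [map_sum]
    push_cast
    refine Finset.sum_congr rfl fun t _ => ?_
    rw [map_smul, smul_eq_mul, hc2]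
  have h2 : ‖∑ t ∈ F, c t • E 𝕜 t‖ ≤ 1 := by
    rw [norm_X]
    refine max_le ?_ ?_
    · refine lp.norm_le_of_forall_le zero_le_one (fun s => ?_)
      have e : (inc 𝕜 (∑ t ∈ F, c t • E 𝕜 t)).1 s = if s ∈ F then c s else 0 := by
        rw [← dl_apply, map_sum]
        simp only [map_smul, dl_E, smul_eq_mul, mul_ite, mul_one, mul_zero]
        rw [Finset.sum_ite_eq F s c]
      rw [e]
      split_ifs
      · exact hc1 s
      · simp
    · rw [← q_apply, map_sum]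
      simp [q_E]
  have h3 : ‖φ (∑ t ∈ F, c t • E 𝕜 t)‖ ≤ ‖φ‖ * 1 :=
    (φ.le_opNorm _).trans (by gcongr)
  rw [h1, RCLike.norm_ofReal, mul_one] at h3
  exact (le_abs_self _).trans h3

theorem summable_E (φ : StrongDual 𝕜 (X 𝕜)) : Summable (fun t => ‖φ (E 𝕜 t)‖) :=
  summable_of_sum_le (fun _ => norm_nonneg _) (sum_le 𝕜 φ)

theorem summable_P (φ : StrongDual 𝕜 (X 𝕜)) : Summable (fun t => φ (E 𝕜 t) • dl 𝕜 t) := by
  refine Summable.of_norm_bounded (summable_E 𝕜 φ) (fun t => ?_)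
  rw [norm_smul]
  exact mul_le_of_le_one_right (norm_nonneg _) (dl_norm 𝕜 t)

/-- The projection of the dual onto the span of the evaluations. -/
noncomputable def P (φ : StrongDual 𝕜 (X 𝕜)) : StrongDual 𝕜 (X 𝕜) :=
  ∑' t, φ (E 𝕜 t) • dl 𝕜 t

theorem P_norm (φ : StrongDual 𝕜 (X 𝕜)) : ‖P 𝕜 φ‖ ≤ ‖φ‖ := by
  have h : ∀ t, ‖φ (E 𝕜 t) • dl 𝕜 t‖ ≤ ‖φ (E 𝕜 t)‖ := by
    intro t
    rw [norm_smul]
    exact mul_le_of_le_one_right (norm_nonneg _) (dl_norm 𝕜 t)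
  refine (tsum_of_norm_bounded (summable_E 𝕜 φ).hasSum h).trans ?_
  exact (summable_E 𝕜 φ).tsum_le_of_sum_le (sum_le 𝕜 φ)

theorem P_add (φ ψ : StrongDual 𝕜 (X 𝕜)) : P 𝕜 (φ + ψ) = P 𝕜 φ + P 𝕜 ψ := by
  unfold P
  rw [← (summable_P 𝕜 φ).tsum_add (summable_P 𝕜 ψ)]
  exact tsum_congr fun t => add_smul (φ (E 𝕜 t)) (ψ (E 𝕜 t)) (dl 𝕜 t)

theorem P_smul (c : 𝕜) (φ : StrongDual 𝕜 (X 𝕜)) : P 𝕜 (c • φ) = c • P 𝕜 φ := by
  unfold P
  rw [← (summable_P 𝕜 φ).tsum_const_smul c]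
  refine tsum_congr fun t => ?_
  rw [smul_smul]
  rfl

theorem P_apply (φ : StrongDual 𝕜 (X 𝕜)) (x : X 𝕜) :
    HasSum (fun t => φ (E 𝕜 t) * dl 𝕜 t x) (P 𝕜 φ x) := by
  have := (summable_P 𝕜 φ).hasSum.mapL (ContinuousLinearMap.apply 𝕜 𝕜 x)
  exact this

theorem P_E (φ : StrongDual 𝕜 (X 𝕜)) (s : List Bool) : P 𝕜 φ (E 𝕜 s) = φ (E 𝕜 s) := by
  classical
  have h := P_apply 𝕜 φ (E 𝕜 s)
  have h2 : HasSum (fun t => φ (E 𝕜 t) * dl 𝕜 t (E 𝕜 s)) (φ (E 𝕜 s)) := by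
    have := hasSum_ite_eq s (φ (E 𝕜 s))
    refine this.congr_fun (fun t => ?_) 
    rw [dl_E]
    split_ifs with h
    · rw [h, mul_one]
    · rw [mul_zero]
  exact h.unique h2

/-- A functional killing all `e_t` has square summable values on the branch generators. -/
theorem sq_sum_le (ψ : StrongDual 𝕜 (X 𝕜)) (hψ : ∀ t, ψ (E 𝕜 t) = 0) (F : Finset (ℕ → Bool)) :
    ∑ g ∈ F, ‖ψ (B 𝕜 g)‖ ^ 2 ≤ ‖ψ‖ ^ 2 := by
  classical
  set S : ℝ := ∑ g ∈ F, ‖ψ (B 𝕜 g)‖ ^ 2 with hS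
  have hS0 : 0 ≤ S := Finset.sum_nonneg fun _ _ => by positivity
  let u : Amb 𝕜 := ∑ g ∈ F, star (ψ (B 𝕜 g)) • gb 𝕜 g
  have hu : u ∈ Sp 𝕜 := Submodule.sum_mem _ fun g _ => Submodule.smul_mem _ _ (gb_mem 𝕜 g)
  obtain ⟨A, hA⟩ := span_tail 𝕜 u hu
  let xu : X 𝕜 := ∑ g ∈ F, star (ψ (B 𝕜 g)) • B 𝕜 g
  have hxu : inc 𝕜 xu = u := by
    simp only [xu, u, map_sum, map_smul]
    rfl
  let w : X 𝕜 := ∑ t ∈ A, u.1 t • E 𝕜 t
  have hψw : ψ w = 0 := by
    simp only [w, map_sum, map_smul, hψ, smul_zero, Finset.sum_const_zero]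
  have hψu : ψ xu = (S : 𝕜) := by
    simp only [xu, map_sum, map_smul, smul_eq_mul]
    rw [hS]
    push_cast
    refine Finset.sum_congr rfl fun g _ => ?_
    rw [RCLike.star_def, RCLike.conj_mul]
  have hu2 : ∀ g, u.2 g = if g ∈ F then star (ψ (B 𝕜 g)) else 0 := by
    intro g
    have e1 : u.2 = ∑ g' ∈ F, star (ψ (B 𝕜 g')) • (gb 𝕜 g').2 := by
      simp only [u, Prod.snd_sum, Prod.smul_snd]
    rw [e1, lp.coeFn_sum, Finset.sum_apply]
    have e2 : ∀ g' ∈ F, (star (ψ (B 𝕜 g')) • (gb 𝕜 g').2 : lp (fun _ : (ℕ → Bool) => 𝕜) 2) g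
        = if g = g' then star (ψ (B 𝕜 g')) else 0 := by
      intro g' _
      rw [lp.coeFn_smul, Pi.smul_apply, smul_eq_mul]
      by_cases h : g = g'
      · subst h
        rw [gb_snd_self, mul_one, if_pos rfl]
      · rw [gb_snd_ne 𝕜 h, mul_zero, if_neg h]
    rw [Finset.sum_congr rfl e2, Finset.sum_ite_eq F g]
  have hnu2 : ‖u.2‖ ≤ Real.sqrt S := by
    refine lp.norm_le_of_forall_sum_le (by norm_num) (Real.sqrt_nonneg _) (fun G => ?_)
    have e1 : (2 : ℝ≥0∞).toReal = 2 := by norm_num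
    rw [e1]
    simp only [Real.rpow_two]
    rw [Real.sq_sqrt hS0]
    calc ∑ g ∈ G, ‖u.2 g‖ ^ 2 = ∑ g ∈ G, (if g ∈ F then ‖ψ (B 𝕜 g)‖ ^ 2 else 0) := by
          refine Finset.sum_congr rfl fun g _ => ?_
          rw [hu2]
          split_ifs
          · rw [norm_star]
          · simp
      _ = ∑ g ∈ G ∩ F, ‖ψ (B 𝕜 g)‖ ^ 2 := by
          rw [Finset.sum_ite_mem]
      _ ≤ S := Finset.sum_le_sum_of_subset_of_nonneg Finset.inter_subset_right
          (fun _ _ _ => by positivity)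
  have hnorm : ‖xu - w‖ ≤ Real.sqrt S := by
    rw [norm_X]
    have hw2 : (inc 𝕜 (xu - w)).2 = u.2 := by
      rw [← q_apply, map_sub]
      have : q 𝕜 w = 0 := by
        simp only [w, map_sum, map_smul, q_E, smul_zero, Finset.sum_const_zero]
      rw [this, sub_zero, q_apply, hxu]
    refine max_le ?_ (by rw [hw2]; exact hnu2)
    refine lp.norm_le_of_forall_le (Real.sqrt_nonneg _) (fun s => ?_)
    have e : (inc 𝕜 (xu - w)).1 s = if s ∈ A then 0 else u.1 s := by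
      rw [← dl_apply, map_sub]
      have e1 : dl 𝕜 s xu = u.1 s := by rw [dl_apply, hxu]
      have e2 : dl 𝕜 s w = if s ∈ A then u.1 s else 0 := by
        simp only [w, map_sum, map_smul, dl_E, smul_eq_mul, mul_ite, mul_one, mul_zero]
        rw [Finset.sum_ite_eq A s]
      rw [e1, e2]
      split_ifs <;> simp
    rw [e]
    split_ifs with h
    · rw [norm_zero]
      exact Real.sqrt_nonneg S
    · exact (hA s h).trans hnu2
  have h1 : S ≤ ‖ψ‖ * Real.sqrt S := by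
    have e : ψ (xu - w) = (S : 𝕜) := by rw [map_sub, hψw, hψu, sub_zero]
    have := ψ.le_opNorm (xu - w)
    rw [e, RCLike.norm_ofReal, abs_of_nonneg hS0] at this
    exact this.trans (by gcongr)
  have h2 : Real.sqrt S ≤ ‖ψ‖ := by
    by_cases h0 : S = 0
    · rw [h0, Real.sqrt_zero]
      exact norm_nonneg _
    · have hpos : 0 < Real.sqrt S := Real.sqrt_pos.2 (lt_of_le_of_ne hS0 (Ne.symm h0))
      have h3 : Real.sqrt S * Real.sqrt S = S := Real.mul_self_sqrt hS0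
      nlinarith
  calc S = Real.sqrt S ^ 2 := (Real.sq_sqrt hS0).symm
    _ ≤ ‖ψ‖ ^ 2 := by gcongr

/-- The coordinate of the dual in the Hilbert space. -/
noncomputable def pfun (φ : StrongDual 𝕜 (X 𝕜)) : lp (fun _ : (ℕ → Bool) => 𝕜) 2 :=
  ⟨fun g => (φ - P 𝕜 φ) (B 𝕜 g), memℓp_gen' (C := ‖φ - P 𝕜 φ‖ ^ 2) (fun F => by
    have e1 : (2 : ℝ≥0∞).toReal = 2 := by norm_num
    rw [e1]
    simp only [Real.rpow_two]
    refine sq_sum_le 𝕜 (φ - P 𝕜 φ) (fun t => ?_) F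
    rw [sub_apply, P_E, sub_self])⟩

theorem pfun_apply (φ : StrongDual 𝕜 (X 𝕜)) (g : ℕ → Bool) :
    pfun 𝕜 φ g = (φ - P 𝕜 φ) (B 𝕜 g) := rfl

theorem pfun_norm (φ : StrongDual 𝕜 (X 𝕜)) : ‖pfun 𝕜 φ‖ ≤ 2 * ‖φ‖ := by
  refine lp.norm_le_of_forall_sum_le (by norm_num) (by positivity) (fun F => ?_)
  have e1 : (2 : ℝ≥0∞).toReal = 2 := by norm_num
  rw [e1]
  simp only [Real.rpow_two]
  refine (sq_sum_le 𝕜 (φ - P 𝕜 φ) (fun t => ?_) F).trans ?_
  · rw [sub_apply, P_E, sub_self]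
  · have : ‖φ - P 𝕜 φ‖ ≤ 2 * ‖φ‖ := by
      refine (norm_sub_le _ _).trans ?_
      have := P_norm 𝕜 φ
      linarith
    gcongr

/-- The projection of the dual onto the Hilbert space. -/
noncomputable def p : StrongDual 𝕜 (X 𝕜) →L[𝕜] lp (fun _ : (ℕ → Bool) => 𝕜) 2 :=
  LinearMap.mkContinuous
    { toFun := pfun 𝕜
      map_add' := by
        intro φ ψ
        ext g
        rw [lp.coeFn_add, Pi.add_apply, pfun_apply, pfun_apply, pfun_apply, P_add,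
          ← add_apply]
        congr 1
        abel
      map_smul' := by
        intro c φ
        ext g
        rw [RingHom.id_apply, lp.coeFn_smul, Pi.smul_apply, pfun_apply, pfun_apply, P_smul,
          ← smul_sub]
        rfl } 2 (pfun_norm 𝕜)

theorem p_apply (φ : StrongDual 𝕜 (X 𝕜)) (g : ℕ → Bool) :
    p 𝕜 φ g = (φ - P 𝕜 φ) (B 𝕜 g) := rfl

/-- The embedding of the Hilbert space in the dual. -/
noncomputable def j : lp (fun _ : (ℕ → Bool) => 𝕜) 2 →L[𝕜] StrongDual 𝕜 (X 𝕜) :=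
  LinearMap.mkContinuous₂
    { toFun := fun h =>
        { toFun := fun x => inner 𝕜 (star h) (q 𝕜 x)
          map_add' := by
            intro x y
            rw [map_add, inner_add_right]
          map_smul' := by
            intro c x
            rw [map_smul, inner_smul_right]
            rfl }
      map_add' := by
        intro h h'
        ext x
        change inner 𝕜 (star (h + h')) (q 𝕜 x) = inner 𝕜 (star h) (q 𝕜 x) + inner 𝕜 (star h') (q 𝕜 x)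
        rw [star_add, inner_add_left]
      map_smul' := by
        intro c h
        ext x
        change inner 𝕜 (star (c • h)) (q 𝕜 x) = c * inner 𝕜 (star h) (q 𝕜 x)
        rw [star_smul, inner_smul_left]
        simp } 1 (by
    intro h x
    change ‖inner 𝕜 (star h) (q 𝕜 x)‖ ≤ 1 * ‖h‖ * ‖x‖
    rw [one_mul]
    refine (norm_inner_le_norm _ _).trans ?_
    rw [norm_star]
    gcongr
    rw [norm_X]
    exact le_max_right _ _)

theorem j_apply (h : lp (fun _ : (ℕ → Bool) => 𝕜) 2) (x : X 𝕜) :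
    j 𝕜 h x = inner 𝕜 (star h) (q 𝕜 x) := rfl

theorem j_E (h : lp (fun _ : (ℕ → Bool) => 𝕜) 2) (t : List Bool) : j 𝕜 h (E 𝕜 t) = 0 := by
  rw [j_apply, q_E, inner_zero_right]

theorem j_B (h : lp (fun _ : (ℕ → Bool) => 𝕜) 2) (g : ℕ → Bool) : j 𝕜 h (B 𝕜 g) = h g := by
  classical
  rw [j_apply]
  have : q 𝕜 (B 𝕜 g) = lp.single (E := fun _ : (ℕ → Bool) => 𝕜) 2 g (1 : 𝕜) := rfl
  rw [this, lp.inner_single_right]
  simp

theorem pj (h : lp (fun _ : (ℕ → Bool) => 𝕜) 2) : p 𝕜 (j 𝕜 h) = h := by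
  ext g
  rw [p_apply]
  have : P 𝕜 (j 𝕜 h) = 0 :=
    (tsum_congr fun t => by rw [j_E]; exact zero_smul 𝕜 (dl 𝕜 t)).trans tsum_zero
  rw [this, sub_zero, j_B]

/-- A functional vanishing on the generators is zero. -/
theorem eq_zero_of_gen (ψ : StrongDual 𝕜 (X 𝕜)) (h1 : ∀ t, ψ (E 𝕜 t) = 0)
    (h2 : ∀ g, ψ (B 𝕜 g) = 0) : ψ = 0 := by
  have hker : IsClosed {x : X 𝕜 | ψ x = 0} := isClosed_eq ψ.continuous continuous_const
  have hsub : ∀ u (hu : u ∈ Sp 𝕜), ψ (⟨u, Sp_le 𝕜 hu⟩ : ↥(JL 𝕜)) = 0 := by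
    intro u hu
    have hu' := hu
    unfold Sp at hu'
    induction hu' using Submodule.span_induction with
    | mem x hx =>
      rcases hx with ⟨s, rfl⟩ | ⟨g0, rfl⟩
      · exact h1 s
      · exact h2 g0
    | zero => exact ψ.map_zero
    | add x y hx hy ihx ihy =>
      have := ψ.map_add (⟨x, Sp_le 𝕜 hx⟩ : ↥(JL 𝕜)) (⟨y, Sp_le 𝕜 hy⟩ : ↥(JL 𝕜))
      rw [ihx hx, ihy hy, add_zero] at this
      exact this
    | smul c x hx ihx =>
      have := ψ.map_smul c (⟨x, Sp_le 𝕜 hx⟩ : ↥(JL 𝕜))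
      rw [ihx hx, smul_zero] at this
      exact this
  ext x
  rw [zero_apply]
  have hx : inc 𝕜 x ∈ closure ((Sp 𝕜 : Submodule 𝕜 (Amb 𝕜)) : Set (Amb 𝕜)) := by
    rw [← Submodule.topologicalClosure_coe]
    exact inc_mem 𝕜 x
  obtain ⟨u, hu, hlim⟩ := mem_closure_iff_seq_limit.1 hx
  have hlim2 : Tendsto (fun n => (⟨u n, Sp_le 𝕜 (hu n)⟩ : ↥(JL 𝕜))) atTop (𝓝 (x : ↥(JL 𝕜))) :=
    tendsto_subtype_rng.2 hlim
  have h3 := (ψ.continuous.tendsto x).comp hlim2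
  refine tendsto_nhds_unique h3 ?_
  refine tendsto_const_nhds.congr fun n => ?_
  exact (hsub (u n) (hu n)).symm

/-- The kernel of `p` is separable. -/
theorem ker_p : ∃ s : ℕ → StrongDual 𝕜 (X 𝕜), ∀ φ, p 𝕜 φ = 0 → φ ∈ closure (Set.range s) := by
  have hsep : TopologicalSpace.IsSeparable
      ((Submodule.span 𝕜 (Set.range (dl 𝕜)) : Submodule 𝕜 (StrongDual 𝕜 (X 𝕜))) :
        Set (StrongDual 𝕜 (X 𝕜))) :=
    (Set.countable_range (dl 𝕜)).isSeparable.span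
  obtain ⟨c, hc, hc2⟩ := hsep
  have hne : c.Nonempty := by
    by_contra h
    rw [Set.not_nonempty_iff_eq_empty] at h
    rw [h, closure_empty] at hc2
    exact hc2 (Submodule.zero_mem _)
  obtain ⟨s, hs⟩ := hc.exists_eq_range hne
  refine ⟨s, fun φ hφ => ?_⟩
  have h1 : φ - P 𝕜 φ = 0 := by
    refine eq_zero_of_gen 𝕜 _ (fun t => ?_) (fun g => ?_)
    · rw [sub_apply, P_E, sub_self]
    · rw [← p_apply, hφ]
      rfl
  rw [sub_eq_zero] at h1
  rw [h1, ← hs]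
  have h2 : P 𝕜 φ ∈ closure ((Submodule.span 𝕜 (Set.range (dl 𝕜)) :
      Submodule 𝕜 (StrongDual 𝕜 (X 𝕜))) : Set (StrongDual 𝕜 (X 𝕜))) := by
    refine mem_closure_of_tendsto (summable_P 𝕜 φ).hasSum (Filter.Eventually.of_forall ?_)
    intro F
    exact Submodule.sum_mem _ fun t _ =>
      Submodule.smul_mem _ _ (Submodule.subset_span ⟨t, rfl⟩)
  exact closure_minimal hc2 isClosed_closure h2

/-- Every closed subspace of the dual is the kernel of a bounded operator on the dual. -/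
theorem dual_positive (Z : Submodule 𝕜 (StrongDual 𝕜 (X 𝕜)))
    (hZ : IsClosed (Z : Set (StrongDual 𝕜 (X 𝕜)))) :
    ∃ T : StrongDual 𝕜 (X 𝕜) →L[𝕜] StrongDual 𝕜 (X 𝕜), ∀ φ, T φ = 0 ↔ φ ∈ Z := by
  classical
  obtain ⟨s, hs⟩ := ker_p 𝕜
  obtain ⟨e⟩ : Nonempty (ℕ ≃ List Bool) := nonempty_equiv_of_countable
  refine kernel_of_decomp (p 𝕜) (j 𝕜) (pj 𝕜) s hs (fun n => dl 𝕜 (e n)) (fun n => dl_norm 𝕜 _)
    (fun n => ?_) (fun a ha h0 n => ?_) Z hZ
  · ext g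
    rw [p_apply]
    have : P 𝕜 (dl 𝕜 (e n)) = dl 𝕜 (e n) := by
      unfold P
      rw [tsum_eq_single (e n)]
      · rw [dl_E, if_pos rfl, one_smul]
      · intro t ht
        rw [dl_E, if_neg (Ne.symm ht)]
        exact zero_smul 𝕜 (dl 𝕜 t)
    rw [this, sub_self]
    rfl
  · have hsum : Summable (fun n => a n • dl 𝕜 (e n)) := by
      refine Summable.of_norm_bounded ha (fun n => ?_)
      rw [norm_smul]
      exact mul_le_of_le_one_right (norm_nonneg _) (dl_norm 𝕜 _)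
    have h1 := hsum.hasSum.mapL (ContinuousLinearMap.apply 𝕜 𝕜 (E 𝕜 (e n)))
    rw [h0, map_zero] at h1
    have h2 : HasSum (fun m => (ContinuousLinearMap.apply 𝕜 𝕜 (E 𝕜 (e n))) (a m • dl 𝕜 (e m)))
        (a n) := by
      have h3 := hasSum_ite_eq n (a n)
      refine h3.congr_fun (fun m => ?_)
      change a m * dl 𝕜 (e m) (E 𝕜 (e n)) = _
      rw [dl_E]
      by_cases h : m = n
      · subst h
        rw [if_pos rfl, if_pos rfl, mul_one]
      · rw [if_neg (fun h' => h (e.injective h')), if_neg h, mul_zero]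
    exact h2.unique h1

/-- The annihilator-type subspace `ker q` is not the kernel of a bounded operator on `X`. -/
theorem negative (T : X 𝕜 →L[𝕜] X 𝕜) : ¬ ∀ x, T x = 0 ↔ q 𝕜 x = 0 := by
  classical
  intro hT
  have hcount : ∀ t : List Bool, {g | dl 𝕜 t (T (B 𝕜 g)) ≠ 0}.Countable := by
    intro t
    let φ : StrongDual 𝕜 (X 𝕜) := (dl 𝕜 t).comp T
    have hφE : ∀ s, φ (E 𝕜 s) = 0 := by
      intro s
      change dl 𝕜 t (T (E 𝕜 s)) = 0
      rw [(hT _).2 (q_E 𝕜 s), map_zero]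
    have hP : P 𝕜 φ = 0 :=
      (tsum_congr fun t => by rw [hφE]; exact zero_smul 𝕜 (dl 𝕜 t)).trans tsum_zero
    have hmem : Summable (fun g => ‖p 𝕜 φ g‖ ^ (2 : ℝ≥0∞).toReal) :=
      (lp.memℓp (p 𝕜 φ)).summable (by norm_num)
    refine hmem.countable_support.mono ?_
    intro g hg
    rw [Function.mem_support]
    have e1 : (2 : ℝ≥0∞).toReal = 2 := by norm_num
    rw [e1, Real.rpow_two]
    have e2 : p 𝕜 φ g = dl 𝕜 t (T (B 𝕜 g)) := by
      rw [p_apply, hP, sub_zero]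
      rfl
    rw [e2]
    exact pow_ne_zero _ (norm_ne_zero_iff.2 hg)
  have hU : (⋃ t : List Bool, {g | dl 𝕜 t (T (B 𝕜 g)) ≠ 0}).Countable :=
    Set.countable_iUnion hcount
  obtain ⟨g, hg⟩ : ∃ g, g ∉ ⋃ t : List Bool, {g | dl 𝕜 t (T (B 𝕜 g)) ≠ 0} := by
    by_contra hcon
    push Not at hcon
    have h1 : (Set.univ : Set (ℕ → Bool)).Countable :=
      hU.mono fun g _ => hcon g
    rw [Set.countable_univ_iff] at h1
    obtain ⟨f, hf⟩ := exists_surjective_nat (ℕ → Bool)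
    obtain ⟨n, hn⟩ := hf (fun n => !(f n n))
    have := congrFun hn n
    simp at this
  have hz : ∀ t, dl 𝕜 t (T (B 𝕜 g)) = 0 := by
    intro t
    by_contra h
    exact hg (Set.mem_iUnion.2 ⟨t, h⟩)
  have h1 : (inc 𝕜 (T (B 𝕜 g))).1 = 0 := by
    ext t
    rw [← dl_apply, hz t]
    rfl
  have h2 : (inc 𝕜 (T (B 𝕜 g))).2 = 0 := by
    ext g'
    have := JL_coord 𝕜 _ (inc_mem 𝕜 (T (B 𝕜 g))) g'
    rw [h1, norm_zero] at this
    have h3 := norm_eq_zero.1 (le_antisymm this (norm_nonneg _))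
    rw [h3]
    rfl
  have h3 : T (B 𝕜 g) = 0 := by
    refine inc_injective 𝕜 ?_
    rw [map_zero]
    exact Prod.ext h1 h2
  have h4 : q 𝕜 (B 𝕜 g) = 0 := (hT _).1 h3
  have h5 : (gb 𝕜 g).2 g = 1 := gb_snd_self 𝕜 g
  have h6 : (gb 𝕜 g).2 = 0 := h4
  rw [h6] at h5
  exact zero_ne_one h5

end Pool.Agent.X109.KP
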