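import Pool.Agent.X109.KP.Core

set_option autoImplicit false

/-!
# A Johnson–Lindenstrauss space

`T = List Bool` is the binary tree, `br g` the branch of `g : ℕ → Bool`. The space `JL` is the
closed linear span, in the sup-norm product of `ℓ∞(T)` and `ℓ₂(ℕ → Bool)`, of the vectors
`(e_t, 0)` and `(1_{br g}, e_g)`.
-/

namespace Pool.Agent.X109.KP

open Topology Filter
open scoped ENNReal

/-- The branch of the binary tree determined by `g`: all finite initial segments of `g`. -/
def br (g : ℕ → Bool) : Set (List Bool) := {t | t = (List.range t.length).map g}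

theorem br_inter {g g' : ℕ → Bool} (h : g ≠ g') : (br g ∩ br g').Finite := by
  obtain ⟨k, hk⟩ := Function.ne_iff.1 h
  refine Set.Finite.subset (((Finset.range (k + 1)).image
    (fun n => (List.range n).map g)).finite_toSet) ?_
  rintro t ⟨h1, h2⟩
  have h1' : t = (List.range t.length).map g := h1
  have h2' : t = (List.range t.length).map g' := h2
  simp only [Finset.coe_image, Finset.coe_range, Set.mem_image, Set.mem_Iio]
  refine ⟨t.length, ?_, h1'.symm⟩
  by_contra hlt
  have hlt' : k < t.length := by omega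
  have e := h1'.symm.trans h2'
  have e2 := List.map_inj_left.1 e k (List.mem_range.2 hlt')
  exact hk e2

theorem br_infinite (g : ℕ → Bool) : (br g).Infinite := by
  refine Set.infinite_of_injective_forall_mem (f := fun n : ℕ => (List.range n).map g) ?_ ?_
  · intro a b hab
    have := congrArg List.length hab
    simpa using this
  · intro n
    change (List.range n).map g = (List.range ((List.range n).map g).length).map g
    simp

variable (𝕜 : Type) [RCLike 𝕜]

/-- The ambient space `ℓ∞(List Bool) × ℓ₂(ℕ → Bool)`. -/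
abbrev Amb : Type := lp (fun _ : List Bool => 𝕜) ∞ × lp (fun _ : (ℕ → Bool) => 𝕜) 2

open Classical in
/-- The indicator function of a set as an element of `ℓ∞`. -/
noncomputable def ind (A : Set (List Bool)) : lp (fun _ : List Bool => 𝕜) ∞ :=
  ⟨fun t => if t ∈ A then 1 else 0, memℓp_infty ⟨1, by
    rintro _ ⟨t, rfl⟩
    by_cases h : t ∈ A <;> simp [h]⟩⟩

open Classical in
theorem ind_apply (A : Set (List Bool)) (t : List Bool) :
    (ind 𝕜 A : List Bool → 𝕜) t = if t ∈ A then 1 else 0 := rfl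

/-- The vectors `(e_t, 0)`. -/
noncomputable def ge (t : List Bool) : Amb 𝕜 := (ind 𝕜 {t}, 0)

open Classical in
/-- The vectors `(1_{br g}, e_g)`. -/
noncomputable def gb (g : ℕ → Bool) : Amb 𝕜 := (ind 𝕜 (br g), lp.single 2 g 1)

theorem gb_snd_self (g : ℕ → Bool) : (gb 𝕜 g).2 g = 1 := by
  classical
  exact lp.single_apply_self (E := fun _ : (ℕ → Bool) => 𝕜) 2 g (1 : 𝕜)

theorem gb_snd_ne {g g0 : ℕ → Bool} (h : g ≠ g0) : (gb 𝕜 g0).2 g = 0 := by
  classical
  exact lp.single_apply_ne (E := fun _ : (ℕ → Bool) => 𝕜) 2 g0 (1 : 𝕜) h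

/-- The span of the generators. -/
noncomputable def Sp : Submodule 𝕜 (Amb 𝕜) :=
  Submodule.span 𝕜 (Set.range (ge 𝕜) ∪ Set.range (gb 𝕜))

/-- The Johnson–Lindenstrauss space. -/
noncomputable def JL : Submodule 𝕜 (Amb 𝕜) := (Sp 𝕜).topologicalClosure

theorem span_struct (u : Amb 𝕜) (hu : u ∈ Sp 𝕜) :
    (∀ g, {t | t ∈ br g ∧ u.1 t ≠ u.2 g}.Finite) ∧
    ∃ F : Finset (ℕ → Bool), {t | u.1 t ≠ 0 ∧ ∀ g ∈ F, t ∉ br g}.Finite := by
  classical
  unfold Sp at hu
  induction hu using Submodule.span_induction with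
  | mem x hx =>
    rcases hx with ⟨s, rfl⟩ | ⟨g0, rfl⟩
    · constructor
      · intro g
        refine (Set.finite_singleton s).subset ?_
        rintro t ⟨_, ht⟩
        by_contra hts
        apply ht
        change (ind 𝕜 {s} : List Bool → 𝕜) t = ((0 : lp (fun _ : (ℕ → Bool) => 𝕜) 2) : _ → 𝕜) g
        rw [ind_apply, if_neg hts]
        simp
      · refine ⟨∅, (Set.finite_singleton s).subset ?_⟩
        rintro t ⟨ht, _⟩
        by_contra hts
        apply ht
        change (ind 𝕜 {s} : List Bool → 𝕜) t = 0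
        rw [ind_apply, if_neg hts]
    · constructor
      · intro g
        by_cases h : g = g0
        · subst h
          refine Set.finite_empty.subset ?_
          rintro t ⟨ht1, ht2⟩
          apply ht2
          rw [gb_snd_self 𝕜 g]
          change (ind 𝕜 (br g) : List Bool → 𝕜) t = 1
          rw [ind_apply, if_pos ht1]
        · refine (br_inter h).subset ?_
          rintro t ⟨ht1, ht2⟩
          refine ⟨ht1, ?_⟩
          by_contra hts
          apply ht2
          rw [gb_snd_ne 𝕜 h]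
          change (ind 𝕜 (br g0) : List Bool → 𝕜) t = 0
          rw [ind_apply, if_neg hts]
      · refine ⟨{g0}, Set.finite_empty.subset ?_⟩
        rintro t ⟨ht1, ht2⟩
        apply ht1
        change (ind 𝕜 (br g0) : List Bool → 𝕜) t = 0
        rw [ind_apply, if_neg (ht2 g0 (Finset.mem_singleton_self _))]
  | zero =>
    refine ⟨fun g => Set.finite_empty.subset ?_, ∅, Set.finite_empty.subset ?_⟩
    · rintro t ⟨_, ht⟩
      exact ht (by simp)
    · rintro t ⟨ht, _⟩
      exact ht (by simp)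
  | add x y _ _ hx hy =>
    obtain ⟨hx1, F, hx2⟩ := hx
    obtain ⟨hy1, G, hy2⟩ := hy
    refine ⟨fun g => ((hx1 g).union (hy1 g)).subset ?_, F ∪ G, (hx2.union hy2).subset ?_⟩
    · rintro t ⟨ht1, ht2⟩
      by_contra hcon
      simp only [Set.mem_union, Set.mem_ofPred_eq, not_or, not_and, not_not] at hcon
      apply ht2
      change x.1 t + y.1 t = x.2 g + y.2 g
      rw [hcon.1 ht1, hcon.2 ht1]
    · rintro t ⟨ht1, ht2⟩
      by_contra hcon
      simp only [Set.mem_union, Set.mem_ofPred_eq, not_or, not_and] at hcon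
      apply ht1
      have h1 : x.1 t = 0 := by
        by_contra h
        exact hcon.1 h (fun g hg => ht2 g (Finset.mem_union_left _ hg))
      have h2 : y.1 t = 0 := by
        by_contra h
        exact hcon.2 h (fun g hg => ht2 g (Finset.mem_union_right _ hg))
      change x.1 t + y.1 t = 0
      rw [h1, h2, add_zero]
  | smul c x _ hx =>
    obtain ⟨hx1, F, hx2⟩ := hx
    refine ⟨fun g => (hx1 g).subset ?_, F, hx2.subset ?_⟩
    · rintro t ⟨ht1, ht2⟩
      refine ⟨ht1, fun h => ht2 ?_⟩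
      change c * x.1 t = c * x.2 g
      rw [h]
    · rintro t ⟨ht1, ht2⟩
      refine ⟨fun h => ht1 ?_, ht2⟩
      change c * x.1 t = 0
      rw [h, mul_zero]

/-- Off a finite set, the first component is bounded by the norm of the second. -/
theorem span_tail (u : Amb 𝕜) (hu : u ∈ Sp 𝕜) :
    ∃ B : Finset (List Bool), ∀ t ∉ B, ‖u.1 t‖ ≤ ‖u.2‖ := by
  classical
  obtain ⟨h1, F, h2⟩ := span_struct 𝕜 u hu
  have h3 : (⋃ g ∈ F, {t | t ∈ br g ∧ u.1 t ≠ u.2 g}).Finite :=
    F.finite_toSet.biUnion (fun g _ => h1 g)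
  refine ⟨(h2.union h3).toFinset, fun t ht => ?_⟩
  rw [Set.Finite.mem_toFinset, Set.mem_union, not_or] at ht
  by_cases h0 : u.1 t = 0
  · rw [h0, norm_zero]
    exact norm_nonneg _
  · have h4 : ∃ g ∈ F, t ∈ br g := by
      by_contra hcon
      push Not at hcon
      exact ht.1 ⟨h0, hcon⟩
    obtain ⟨g, hg, hgt⟩ := h4
    have h5 : u.1 t = u.2 g := by
      by_contra hne
      exact ht.2 (Set.mem_biUnion hg ⟨hgt, hne⟩)
    rw [h5]
    exact lp.norm_apply_le_norm (by norm_num) u.2 g

theorem span_coord (u : Amb 𝕜) (hu : u ∈ Sp 𝕜) (g : ℕ → Bool) : ‖u.2 g‖ ≤ ‖u.1‖ := by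
  obtain ⟨h1, _⟩ := span_struct 𝕜 u hu
  obtain ⟨t, ht1, ht2⟩ := ((br_infinite g).sdiff (h1 g)).nonempty
  have h5 : u.1 t = u.2 g := by
    by_contra hne
    exact ht2 ⟨ht1, hne⟩
  rw [← h5]
  exact lp.norm_apply_le_norm (by simp) u.1 t

theorem JL_coord (u : Amb 𝕜) (hu : u ∈ JL 𝕜) (g : ℕ → Bool) : ‖u.2 g‖ ≤ ‖u.1‖ := by
  have hc : IsClosed {u : Amb 𝕜 | ‖u.2 g‖ ≤ ‖u.1‖} := by
    refine isClosed_le ?_ (continuous_norm.comp continuous_fst)
    refine continuous_norm.comp ?_
    have h1 : Continuous (fun w : lp (fun _ : (ℕ → Bool) => 𝕜) 2 => w g) := by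
      refine (LipschitzWith.of_dist_le_mul (K := 1) (fun w w' => ?_)).continuous
      rw [NNReal.coe_one, one_mul, dist_eq_norm, dist_eq_norm]
      have := lp.norm_apply_le_norm (p := 2) (by norm_num) (w - w') g
      simpa using this
    exact h1.comp continuous_snd
  have h2 : ((Sp 𝕜 : Submodule 𝕜 (Amb 𝕜)) : Set (Amb 𝕜)) ⊆ {u : Amb 𝕜 | ‖u.2 g‖ ≤ ‖u.1‖} :=
    fun w hw => span_coord 𝕜 w hw g
  have h3 : u ∈ closure ((Sp 𝕜 : Submodule 𝕜 (Amb 𝕜)) : Set (Amb 𝕜)) := by
    rw [← Submodule.topologicalClosure_coe]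
    exact hu
  exact closure_minimal h2 hc h3

end Pool.Agent.X109.KP
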